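import Pool.Agent.MP_bd94e8_al.H83A.Cor

/-!
Socle elements between isomorphic corners, and the lengths of the bimodules of arrows.
-/

set_option autoImplicit false
set_option linter.unusedSectionVars false

namespace Pool.Agent.MP_bd94e8_al.H83A

open Module Function IsLocalRing H89

namespace EdgeA

section ring
variable {A : Type} [Ring A]

theorem pow_left {e b : A} (h : e * b = b) {m : ℕ} (hm : 0 < m) : e * b ^ m = b ^ m := by
  obtain ⟨m, rfl⟩ := Nat.exists_eq_add_of_lt hm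
  rw [pow_succ', ← mul_assoc, h]

theorem pow_right {e b : A} (h : b * e = b) {m : ℕ} (hm : 0 < m) : b ^ m * e = b ^ m := by
  obtain ⟨m, rfl⟩ := Nat.exists_eq_add_of_lt hm
  rw [pow_succ, mul_assoc, h]

theorem pow_inter (W : Ideal A) [W.IsTwoSided] {β β' x : A} (h : β * x - x * β' ∈ W) (m : ℕ) :
    β ^ m * x - x * β' ^ m ∈ W := by
  induction m with
  | zero => simp
  | succ m ih =>
    have e : β ^ (m + 1) * x - x * β' ^ (m + 1) =
        β ^ m * (β * x - x * β') + (β ^ m * x - x * β' ^ m) * β' := by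
      rw [pow_succ, pow_succ]; noncomm_ring
    rw [e]
    exact W.add_mem (W.mul_mem_left _ h) (Ideal.mul_mem_right _ W ih)

/-- A nonzero element that is killed by the radical on the right. -/
theorem kill (v : A) (P : A → Prop) (hP : ∀ a r, P a → P (a * r * v)) (k : ℕ) :
    ∀ a, P a → a ≠ 0 → (∀ y ∈ Ring.jacobson A ^ k, a * y = 0) →
      ∃ a', P a' ∧ a' ≠ 0 ∧ ∀ r ∈ Ring.jacobson A, a' * r * v = 0 := by
  induction k with
  | zero =>
    intro a _ h0 h
    refine absurd ?_ h0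
    simpa using h 1 (by rw [Submodule.pow_zero, Ideal.one_eq_top]; trivial)
  | succ k ih =>
    intro a ha h0 h
    by_cases hc : ∀ r ∈ Ring.jacobson A, a * r * v = 0
    · exact ⟨a, ha, h0, hc⟩
    · push Not at hc
      obtain ⟨r, hr, hne⟩ := hc
      refine ih _ (hP a r ha) hne fun y hy => ?_
      rw [mul_assoc a, mul_assoc a]
      refine h _ ?_
      rw [Ideal.IsTwoSided.pow_succ]
      exact Ideal.mul_mem_mul (Ideal.mul_mem_right _ _ hr) hy

theorem cast_zero {k : Type} [Semiring k] (q : ℕ) [h : ExpChar k q] (hp : q.Prime) :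
    (q : k) = 0 := by
  cases h with
  | zero => exact absurd hp Nat.not_prime_one
  | prime _ => exact CharP.cast_eq_zero k q

end ring

variable (C : Type) {A : Type} [CommRing C] [IsArtinianRing C] [IsLocalRing C] [Ring A]
  [Algebra C A] [Module.Finite C A]

theorem qpos (r : ℕ) : 0 < ringExpChar (ResidueField C) ^ r :=
  pow_pos (expChar_pos (ResidueField C) _) r

theorem frob {R : Type} [Ring R] [Algebra C R] {x y : R} (h : Commute x y) (r : ℕ) :
    ∃ c ∈ maximalIdeal C, ∃ z : R, (x - y) ^ (ringExpChar (ResidueField C) ^ r) =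
      x ^ (ringExpChar (ResidueField C) ^ r) - y ^ (ringExpChar (ResidueField C) ^ r) + c • z := by
  rcases expChar_is_prime_or_one (ResidueField C) (ringExpChar (ResidueField C)) with hp | h1
  · obtain ⟨z, hz⟩ := (h.sub_left (Commute.refl y)).exists_add_pow_prime_pow_eq hp r
    have hc : ((ringExpChar (ResidueField C) : ℕ) : C) ∈ maximalIdeal C := by
      rw [← residue_eq_zero_iff, map_natCast]
      exact cast_zero _ hp
    refine ⟨_, hc, -((x - y) * y * z), ?_⟩
    rw [sub_add_cancel] at hz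
    rw [hz, Nat.cast_smul_eq_nsmul, nsmul_eq_mul]
    noncomm_ring
  · exact ⟨0, zero_mem _, 0, by simp [h1]⟩

variable {C}

theorem cn_pow {e b : A} (he : IsIdempotentElem e) (hb : e * b * e = b) {m : ℕ} (hm : 0 < m)
    (c : C) : e * (b ^ m - c • e) * e = b ^ m - c • e := by
  rw [mul_sub, sub_mul, pow_left (cn_left he hb) hm, pow_right (cn_right he hb) hm, mul_smul_comm,
    smul_mul_assoc, he.eq, he.eq]

/-- Intertwined elements have the same residue. -/
theorem nil_iff {u v x β β' : A} (hu : IsIdempotentElem u) (hv : IsIdempotentElem v)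
    (lu : LocAt u) (lv : LocAt v) (W : Ideal A) [W.IsTwoSided] (hx : u * x * v = x) (hW : x ∉ W)
    (h1 : ∀ r ∈ Ring.jacobson A, r * x ∈ W) (h2 : ∀ r ∈ Ring.jacobson A, x * r ∈ W)
    (hβ : u * β * u = β) (hβ' : v * β' * v = β') (h : β * x - x * β' ∈ W) {m : ℕ} (hm : 0 < m)
    (c : C) : IsNilpotent (β ^ m - c • u) ↔ IsNilpotent (β' ^ m - c • v) := by
  have e : (β ^ m - c • u) * x - x * (β' ^ m - c • v) ∈ W := by
    have := pow_inter W h m
    rw [sub_mul, mul_sub, smul_mul_assoc, mul_smul_comm, cn_left hu hx, cn_right hv hx]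
    rwa [sub_sub_sub_cancel_right]
  have c1 := cn_pow hu hβ hm c
  have c2 := cn_pow hv hβ' hm c
  constructor
  · intro hn
    refine (lv.nil_or c2).resolve_right ?_
    rintro ⟨w, -, -, hw⟩
    have h3 := W.sub_mem (h1 _ (lu.mem_jac hu c1 hn)) e
    rw [sub_sub_cancel] at h3
    have h4 := Ideal.mul_mem_right w W h3
    rw [mul_assoc, hw, cn_right hv hx] at h4
    exact hW h4
  · intro hn
    refine (lu.nil_or c1).resolve_right ?_
    rintro ⟨w, -, hw, -⟩
    have h3 := W.add_mem e (h2 _ (lv.mem_jac hv c2 hn))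
    rw [sub_add_cancel] at h3
    have h4 := W.mul_mem_left w h3
    rw [← mul_assoc, hw, cn_left hu hx] at h4
    exact hW h4

theorem iso_of {n : ℕ} {e : Fin n → A} (h : PIA C A e) (i j : Fin n) {x : A} (W : Ideal A)
    [W.IsTwoSided] (hx : e i * x * e j = x) (hW : x ∉ W)
    (h1 : ∀ r ∈ Ring.jacobson A, r * x ∈ W) (h2 : ∀ r ∈ Ring.jacobson A, x * r ∈ W)
    (h3 : ∀ β, e i * β * e i = β → ∃ β', e j * β' * e j = β' ∧ β * x - x * β' ∈ W)
    (h4 : ∀ β', e j * β' * e j = β' → ∃ β, e i * β * e i = β ∧ β * x - x * β' ∈ W) :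
    Iso C (e i) (e j) := by
  have hi := h.idem.idem i
  have hj := h.idem.idem j
  constructor
  · intro b
    obtain ⟨β', c1, c2⟩ := h3 _ (cn_cn hi hi b)
    obtain ⟨r, c, hc⟩ := h.pi i b
    refine ⟨β', r, c, hc, ?_⟩
    rw [c1]
    exact (nil_iff hi hj (h.locAt C i) (h.locAt C j) W hx hW h1 h2 (cn_cn hi hi b) c1 c2
      (qpos C r) c).1 hc
  · intro b'
    obtain ⟨β, c1, c2⟩ := h4 _ (cn_cn hj hj b')
    obtain ⟨r, c, hc⟩ := h.pi j b'
    refine ⟨β, r, c, ?_, hc⟩
    rw [c1]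
    exact (nil_iff hi hj (h.locAt C i) (h.locAt C j) W hx hW h1 h2 c1 (cn_cn hj hj b') c2
      (qpos C r) c).2 hc

theorem len_le {G U Φ : Type} [AddCommGroup G] [Module C G] [AddCommGroup U] [Module C U]
    [AddCommGroup Φ] [Module C Φ] (α : G →ₗ[C] U) (β : G →ₗ[C] Φ) (hs : Surjective α)
    (h : ∀ g, β g = 0 → α g = 0) : length C U ≤ length C Φ := by
  have := H83.len_rel' α β ⊥ ⊥ hs h
  rwa [H83.len_quot_bot, H83.len_quot_bot] at this

/-- One or two generators over a residue field. -/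
theorem two (E J X W : Submodule C A) (μ : A →ₗ[C] A →ₗ[C] A)
    (hX : ∀ a ∈ E, ∀ x ∈ X, μ a x ∈ X) (hJ : ∀ a ∈ J, ∀ x ∈ X, μ a x ∈ W)
    (hU : ∀ a ∈ E, a ∉ J → ∃ w ∈ E, ∀ x ∈ X, μ w (μ a x) = x)
    (hW : ∀ a, ∀ w ∈ W, μ a w ∈ W)
    (hc : ∀ a ∈ E, ∀ a' ∈ E, ∃ a'' ∈ E, ∀ x, μ a (μ a' x) = μ a'' x)
    {x : A} (hx : x ∈ X) (hxW : x ∉ W) :
    ql E J ≤ ql X W ∧ ((∀ y ∈ X, ∃ a ∈ E, y - μ a x ∈ W) ∨ 2 * ql E J ≤ ql X W) := by
  have k1 : ∀ a ∈ E, μ a x ∈ W → a ∈ J := by
    intro a ha h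
    by_contra hn
    obtain ⟨w, -, hw⟩ := hU a ha hn
    exact hxW (hw x hx ▸ hW w _ h)
  let ρ : ∀ y ∈ X, E →ₗ[C] X.map W.mkQ := fun y hy =>
    (W.mkQ ∘ₗ μ.flip y ∘ₗ E.subtype).codRestrict _ fun a => ⟨_, hX a a.2 y hy, rfl⟩
  have hρ : ∀ y hy (a : E), (ρ y hy a : A ⧸ W) = W.mkQ (μ a y) := fun _ _ _ => rfl
  have hπ : ∀ a : E, a.1 ∈ J → J.mkQ.submoduleMap E a = 0 := fun a ha =>
    Subtype.ext ((Submodule.Quotient.mk_eq_zero J).2 ha)
  refine ⟨H83.len_le_len.2 (len_le (J.mkQ.submoduleMap E) (ρ x hx)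
    (LinearMap.submoduleMap_surjective _ _) fun a ha => hπ a (k1 a a.2 ?_)), ?_⟩
  · have := congrArg Subtype.val ha
    rw [hρ x hx] at this
    exact (Submodule.Quotient.mk_eq_zero W).1 this
  · refine or_iff_not_imp_left.2 fun hn => ?_
    push Not at hn
    obtain ⟨y, hy, hne⟩ := hn
    have h1 := len_le ((J.mkQ.submoduleMap E).prodMap (J.mkQ.submoduleMap E))
      ((ρ x hx).coprod (ρ y hy))
      ((LinearMap.submoduleMap_surjective _ _).prodMap (LinearMap.submoduleMap_surjective _ _))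
      (by
        rintro ⟨a, a'⟩ ha
        have h2 := congrArg Subtype.val ha
        rw [LinearMap.coprod_apply, Submodule.coe_add, hρ x hx, hρ y hy, ← map_add] at h2
        have h3 : μ a x + μ a' y ∈ W := (Submodule.Quotient.mk_eq_zero W).1 h2
        have h4 : a'.1 ∈ J := by
          by_contra hn
          obtain ⟨w, hwE, hw⟩ := hU a' a'.2 hn
          obtain ⟨a'', h5, h6⟩ := hc w hwE a a.2
          have h7 := hW w _ h3
          rw [map_add, hw y hy, h6] at h7
          refine hne (-a'') (E.neg_mem h5) ?_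
          rwa [map_neg, LinearMap.neg_apply, sub_neg_eq_add, add_comm]
        have h5 : μ a x ∈ W := (W.add_mem_iff_left (hJ _ h4 y hy)).1 h3
        exact Prod.ext (hπ a (k1 a a.2 h5)) (hπ a' h4))
    rw [length_prod, ← H83.len_cast, ← H83.len_cast] at h1
    unfold ql
    rw [two_mul]
    exact_mod_cast h1

/-- The sub-bimodules of the two-sided socle. -/
structure Bim (u v : A) (N : Submodule C A) : Prop where
  ne : N ≠ ⊥
  cn : ∀ a ∈ N, u * a * v = a
  left : ∀ a ∈ N, ∀ r ∈ Ring.jacobson A, r * a = 0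
  right : ∀ a ∈ N, ∀ r ∈ Ring.jacobson A, a * r * v = 0
  ml : ∀ a ∈ N, ∀ x, u * x * a ∈ N
  mr : ∀ a ∈ N, ∀ y, a * y * v ∈ N

theorem partner {n : ℕ} {e : Fin n → A} (h : PIA C A e) (s l : Fin n) {N : Submodule C A}
    (hN : Bim (e s) (e l) N) (hmin : ∀ N', Bim (e s) (e l) N' → ¬ N' < N) {b b' : A}
    (hb : Same C (e s) (e l) b b') : ∀ a ∈ N, e s * b * e s * a = a * (e l * b' * e l) := by
  have hs := h.idem.idem s
  have hl := h.idem.idem l
  obtain ⟨r, c, n1, n2⟩ := hb
  have c1 := cn_cn hs hs b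
  have c2 := cn_cn hl hl b'
  generalize e s * b * e s = β at c1 n1 ⊢
  generalize e l * b' * e l = β' at c2 n2 ⊢
  let φ : Module.End C A := LinearMap.mulLeft C β - LinearMap.mulRight C β'
  have hφ : ∀ a, φ a = β * a - a * β' := fun _ => rfl
  have m1 : ∀ a ∈ N, φ a ∈ N := fun a ha => by
    refine N.sub_mem ?_ ?_
    · have := hN.ml a ha β
      rwa [cn_left hs c1] at this
    · have := hN.mr a ha β'
      rwa [mul_assoc, cn_right hl c2] at this
  have nil : ∀ a ∈ N, (φ ^ (ringExpChar (ResidueField C) ^ r)) a = 0 := by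
    intro a ha
    obtain ⟨c', hc', z, hz⟩ := frob C (LinearMap.commute_mulLeft_right (R := C) β β') r
    have d1 := cn_pow hs c1 (qpos C r) c
    have d2 := cn_pow hl c2 (qpos C r) c
    have b1 := hN.left a ha _ ((h.locAt C s).mem_jac hs d1 n1)
    have b2 := hN.right a ha _ ((h.locAt C l).mem_jac hl d2 n2)
    have b3 := hN.left a ha _ (smul_mem_jac C (max_nil C hc') (1 : A))
    rw [sub_mul, smul_mul_assoc, cn_left hs (hN.cn a ha), sub_eq_zero] at b1
    rw [mul_assoc, cn_right hl d2, mul_sub, mul_smul_comm, cn_right hl (hN.cn a ha),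
      sub_eq_zero] at b2
    rw [smul_mul_assoc, one_mul] at b3
    rw [show φ = LinearMap.mulLeft C β - LinearMap.mulRight C β' from rfl, hz, LinearMap.add_apply,
      LinearMap.sub_apply, LinearMap.smul_apply, LinearMap.pow_mulLeft, LinearMap.pow_mulRight,
      LinearMap.mulLeft_apply, LinearMap.mulRight_apply, b1, b2, ← map_smul, b3, map_zero,
      sub_self, add_zero]
  have key : N ⊓ LinearMap.ker φ = N := by
    refine eq_of_le_of_not_lt inf_le_left (hmin _ ⟨?_, fun a ha => hN.cn a ha.1,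
      fun a ha => hN.left a ha.1, fun a ha => hN.right a ha.1,
      fun a ha x => ⟨hN.ml a ha.1 x, ?_⟩, fun a ha y => ⟨hN.mr a ha.1 y, ?_⟩⟩)
    · intro h0
      have inj : ∀ m : ℕ, ∀ a ∈ N, (φ ^ m) a = 0 → a = 0 := by
        intro m
        induction m with
        | zero => intro a _ ha; simpa using ha
        | succ m ih =>
          intro a ha h1
          rw [pow_succ, Module.End.mul_apply] at h1
          have h2 : a ∈ N ⊓ LinearMap.ker φ := ⟨ha, ih _ (m1 a ha) h1⟩
          rwa [h0] at h2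
      exact hN.ne (eq_bot_iff.2 fun a ha => inj _ a ha (nil a ha))
    · have a1 := cn_left hs (hN.cn a ha.1)
      have a2 : β * a - a * β' = 0 := ha.2
      have a3 := hN.left a ha.1 _ ((h.locAt C s).mem_jac hs (b := β * (e s * x * e s) -
        e s * x * e s * β) (by
          rw [mul_sub, sub_mul, ← mul_assoc (e s) β, cn_left hs c1, mul_assoc β,
            cn_right hs (cn_cn hs hs x), ← mul_assoc (e s) (e s * x * e s),
            cn_left hs (cn_cn hs hs x), mul_assoc _ β, cn_right hs c1])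
        (by simpa only [c1] using h.comm s β x))
      change β * (e s * x * a) - e s * x * a * β' = 0
      rw [sub_eq_zero] at a2
      rw [sub_mul, mul_assoc β, mul_assoc _ (e s) a, a1, mul_assoc _ β a, a2,
        mul_assoc _ (e s) (a * β'), ← mul_assoc (e s) a, a1, ← mul_assoc _ a] at a3
      exact a3
    · have a1 := cn_right hl (hN.cn a ha.1)
      have a2 : β * a - a * β' = 0 := ha.2
      have c3 : e l * (β' * (e l * y * e l) - e l * y * e l * β') * e l =
          β' * (e l * y * e l) - e l * y * e l * β' := by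
        rw [mul_sub, sub_mul, ← mul_assoc (e l) β', cn_left hl c2, mul_assoc β',
          cn_right hl (cn_cn hl hl y), ← mul_assoc (e l) (e l * y * e l),
          cn_left hl (cn_cn hl hl y), mul_assoc _ β', cn_right hl c2]
      have a3 := hN.right a ha.1 _ ((h.locAt C l).mem_jac hl c3
        (by simpa only [c2] using h.comm l β' y))
      change β * (a * y * e l) - a * y * e l * β' = 0
      rw [sub_eq_zero] at a2
      rw [mul_assoc, cn_right hl c3, mul_sub, ← mul_assoc a β', ← a2, mul_assoc β a,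
        ← mul_assoc a (e l * y * e l) β', ← mul_assoc a (e l * y), ← mul_assoc a (e l), a1] at a3
      exact a3
  intro a ha
  rw [← key] at ha
  exact sub_eq_zero.1 ha.2

end EdgeA

open EdgeA

theorem soc : SSoc := by
  intro C A _ _ _ _ _ _ n e h s l ⟨a0, h0, h1, h2⟩ hI
  have hs := h.idem.idem s
  have hl := h.idem.idem l
  obtain ⟨N, hN⟩ := jac_pow C A
  obtain ⟨a1, ⟨p1, p2⟩, p3, p4⟩ := kill (e l)
    (fun a => e s * a * e l = a ∧ ∀ r ∈ Ring.jacobson A, r * a = 0)
    (fun a r ha => ⟨by rw [← mul_assoc, ← mul_assoc, cn_left hs ha.1, mul_assoc, hl.eq],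
      fun t ht => by rw [← mul_assoc, ← mul_assoc, ha.2 t ht, zero_mul, zero_mul]⟩) N a0
    ⟨h1, h2⟩ h0 fun y hy => by rw [hN, Ideal.mem_bot] at hy; rw [hy, mul_zero]
  let T : Submodule C A :=
    { carrier := {a | e s * a * e l = a ∧ (∀ r ∈ Ring.jacobson A, r * a = 0) ∧
        ∀ r ∈ Ring.jacobson A, a * r * e l = 0}
      zero_mem' := by simp
      add_mem' := fun ha hb => ⟨by rw [mul_add, add_mul, ha.1, hb.1],
        fun r hr => by rw [mul_add, ha.2.1 r hr, hb.2.1 r hr, add_zero],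
        fun r hr => by rw [add_mul, add_mul, ha.2.2 r hr, hb.2.2 r hr, add_zero]⟩
      smul_mem' := fun c _ ha => ⟨by rw [mul_smul_comm, smul_mul_assoc, ha.1],
        fun r hr => by rw [mul_smul_comm, ha.2.1 r hr, smul_zero],
        fun r hr => by rw [smul_mul_assoc, smul_mul_assoc, ha.2.2 r hr, smul_zero]⟩ }
  have hT : Bim (e s) (e l) T := by
    refine ⟨fun h0 => p3 ?_, fun a ha => ha.1, fun a ha => ha.2.1, fun a ha => ha.2.2,
      fun a ha x => ⟨?_, fun r hr => ?_, fun r hr => ?_⟩,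
      fun a ha y => ⟨?_, fun r hr => ?_, fun r hr => ?_⟩⟩
    · have : a1 ∈ T := ⟨p1, p2, p4⟩
      rwa [h0] at this
    · rw [← mul_assoc, ← mul_assoc, hs.eq, mul_assoc, cn_right hl ha.1]
    · rw [← mul_assoc]
      exact ha.2.1 _ (Ideal.mul_mem_right _ _ hr)
    · rw [mul_assoc _ a, mul_assoc _ (a * r), ha.2.2 r hr, mul_zero]
    · rw [← mul_assoc, ← mul_assoc, cn_left hs ha.1, mul_assoc, hl.eq]
    · rw [← mul_assoc, ← mul_assoc, ha.2.1 r hr, zero_mul, zero_mul]
    · rw [mul_assoc a y, mul_assoc a]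
      exact ha.2.2 _ (Ideal.mul_mem_left _ _ hr)
  obtain ⟨M, hM, hmin⟩ := IsArtinian.set_has_minimal {M : Submodule C A | Bim (e s) (e l) M} ⟨T, hT⟩
  obtain ⟨a, ha, ha0⟩ := Submodule.exists_mem_ne_zero_of_ne_bot hM.ne
  refine ⟨s, l, a, ha0, hM.cn a ha, hM.left a ha, fun b => ?_, fun b' => ?_⟩
  · obtain ⟨b', hb⟩ := hI.1 b
    exact ⟨b', partner h s l hM hmin hb a ha⟩
  · obtain ⟨b, hb⟩ := hI.2 b'
    exact ⟨b, partner h s l hM hmin hb a ha⟩

theorem edge : SEdge := by
  intro C A _ _ _ _ _ _ n e h i j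
  have hi := h.idem.idem i
  have hj := h.idem.idem j
  refine ⟨fun hI x => ?_, fun W _ hW x hx hxW => ?_⟩
  · by_contra hx
    have c := cn_cn hi hj x
    obtain ⟨y, y1, y2⟩ := (h.locAt C i).right_inv hi hj c hx
    obtain ⟨y', z1, z2⟩ := (h.locAt C j).left_inv hi hj c hx
    generalize e i * x * e j = x' at hx c y2 z2
    refine hI (iso_of h i j (Ring.jacobson A) c hx (fun r hr => Ideal.mul_mem_right _ _ hr)
      (fun r hr => Ideal.mul_mem_left _ _ hr) (fun β hβ => ⟨y * β * x', ?_, ?_⟩)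
      fun β' hβ' => ⟨x' * β' * y', ?_, ?_⟩)
    · rw [← mul_assoc, ← mul_assoc, cn_left hj y1, mul_assoc, cn_right hj c]
    · rw [← mul_assoc, ← mul_assoc, y2, cn_left hi hβ, sub_self]
      exact zero_mem _
    · rw [← mul_assoc, ← mul_assoc, cn_left hi c, mul_assoc, cn_right hi z1]
    · rw [mul_assoc, z2, mul_assoc, cn_right hj hβ', sub_self]
      exact zero_mem _
  · have k1 : ∀ a ∈ Jc C A, ∀ y ∈ cn (e i) (e j) (Jc C A), a * y ∈ W := fun a ha y hy => by
      have := (hW a ha y hy.1).1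
      rwa [mul_assoc, cn_left hi hy.2] at this
    have k2 : ∀ a ∈ Jc C A, ∀ y ∈ cn (e i) (e j) (Jc C A), y * a ∈ W := fun a ha y hy => by
      have := (hW y hy.1 a ha).2
      rwa [cn_right hj hy.2] at this
    obtain ⟨l1, l2⟩ := two (cn (e i) (e i) ⊤) (Jc C A) (cn (e i) (e j) (Jc C A))
      (W.restrictScalars C) (LinearMap.mul C A)
      (fun a ha y hy => ⟨Ideal.mul_mem_left _ a hy.1, by
        rw [LinearMap.mul_apply', ← mul_assoc, cn_left hi ha.2, mul_assoc, cn_right hj hy.2]⟩)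
      k1 (fun a ha hn => by
        obtain ⟨w, w1, w2⟩ := (h.locAt C i).left_inv hi hi ha.2 hn
        exact ⟨w, ⟨trivial, w1⟩, fun y hy => by
          rw [LinearMap.mul_apply', LinearMap.mul_apply', ← mul_assoc, w2, cn_left hi hy.2]⟩)
      (fun a w hw => W.mul_mem_left a hw)
      (fun a ha a' ha' => ⟨a * a', ⟨trivial, by
        rw [← mul_assoc, cn_left hi ha.2, mul_assoc, cn_right hi ha'.2]⟩,
        fun y => (mul_assoc _ _ _).symm⟩) hx hxW
    obtain ⟨r1, r2⟩ := two (cn (e j) (e j) ⊤) (Jc C A) (cn (e i) (e j) (Jc C A))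
      (W.restrictScalars C) (LinearMap.mul C A).flip
      (fun a ha y hy => ⟨Ideal.mul_mem_right a (Ring.jacobson A) hy.1, by
        rw [LinearMap.flip_apply, LinearMap.mul_apply', ← mul_assoc, cn_left hi hy.2, mul_assoc,
          cn_right hj ha.2]⟩)
      k2 (fun a ha hn => by
        obtain ⟨w, w1, w2⟩ := (h.locAt C j).right_inv hj hj ha.2 hn
        exact ⟨w, ⟨trivial, w1⟩, fun y hy => by
          rw [LinearMap.flip_apply, LinearMap.flip_apply, LinearMap.mul_apply',
            LinearMap.mul_apply', mul_assoc, w2, cn_right hj hy.2]⟩)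
      (fun a w hw => Ideal.mul_mem_right a W hw)
      (fun a ha a' ha' => ⟨a' * a, ⟨trivial, by
        rw [← mul_assoc, cn_left hj ha'.2, mul_assoc, cn_right hj ha.2]⟩,
        fun y => mul_assoc _ _ _⟩) hx hxW
    refine ⟨l1, r1, ?_⟩
    rcases l2 with l2 | l2
    · rcases r2 with r2 | r2
      · refine Or.inl (iso_of h i j W hx.2 hxW (fun r hr => k1 r hr x hx)
          (fun r hr => k2 r hr x hx) (fun β hβ => ?_) fun β' hβ' => ?_)
        · obtain ⟨a, a1, a2⟩ := r2 (β * x) ⟨Ideal.mul_mem_left _ β hx.1, by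
            rw [← mul_assoc, cn_left hi hβ, mul_assoc, cn_right hj hx.2]⟩
          exact ⟨a, a1.2, a2⟩
        · obtain ⟨a, a1, a2⟩ := l2 (x * β') ⟨Ideal.mul_mem_right β' (Ring.jacobson A) hx.1, by
            rw [← mul_assoc, cn_left hi hx.2, mul_assoc, cn_right hj hβ']⟩
          refine ⟨a, a1.2, ?_⟩
          rw [← neg_sub]
          exact W.neg_mem a2
      · exact Or.inr (Or.inr r2)
    · exact Or.inr (Or.inl l2)

end Pool.Agent.MP_bd94e8_al.H83A
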